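import Pool.Agent.N549.HG.Stm3

/-!
# HG/CANON: from the partition function to its coefficients (helper424)
-/

set_option autoImplicit false

namespace Pool.Agent.N424.HG

open Finset

/-! ### Elementary inequalities -/

theorem log_low {η : ℝ} (h : 0 ≤ η) (h1 : η ≤ 1) :
    η + η ^ 2 / 3 ≤ (1 + η) * Real.log (1 + η) := by
  have h2 := Real.le_log_one_add_of_nonneg h
  have h3 : η + η ^ 2 / 3 ≤ (1 + η) * (2 * η / (η + 2)) := by
    rw [← mul_div_assoc, le_div_iff₀ (by positivity)]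
    nlinarith [mul_nonneg h h, mul_nonneg (mul_nonneg h h) (sub_nonneg.2 h1)]
  exact h3.trans (mul_le_mul_of_nonneg_left h2 (by positivity))

theorem log_up {η : ℝ} (h : 0 ≤ η) (h1 : η ≤ 1) : Real.log (1 + η) ≤ η - η ^ 2 / 4 := by
  rw [Real.log_le_iff_le_exp (by positivity)]
  have h2 : 0 ≤ η - η ^ 2 / 4 := by nlinarith
  refine le_trans ?_ (Real.quadratic_le_exp_of_nonneg h2)
  have h3 : (η - η ^ 2 / 4) ^ 2 = η ^ 2 * (1 - η / 4) ^ 2 := by ring
  rw [h3]
  have h4 : 1 / 2 ≤ (1 - η / 4) ^ 2 := by nlinarith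
  nlinarith [mul_le_mul_of_nonneg_left h4 (sq_nonneg η)]

theorem log_fact_up (k : ℕ) (hk : 1 ≤ k) :
    Real.log k.factorial ≤ (k + 1) * Real.log k - k + 1 := by
  induction k, hk using Nat.le_induction with
  | base => simp
  | succ k hk ih =>
    have hk0 : (0 : ℝ) < k := by exact_mod_cast hk
    rw [Nat.factorial_succ, Nat.cast_mul, Real.log_mul (by positivity) (by positivity)]
    push_cast
    have h1 := Real.one_sub_inv_le_log_of_pos (show 0 < ((k : ℝ) + 1) / k by positivity)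
    rw [Real.log_div (by positivity) hk0.ne', inv_div] at h1
    have h2 : ((k : ℝ) + 1) * (1 - k / (k + 1)) ≤
        (k + 1) * (Real.log (k + 1) - Real.log k) :=
      mul_le_mul_of_nonneg_left h1 (by positivity)
    have h3 : ((k : ℝ) + 1) * (1 - k / (k + 1)) = 1 := by
      field_simp
      ring
    rw [h3] at h2
    linarith

theorem log_fact_low (k : ℕ) (hk : 1 ≤ k) : k * Real.log k - k ≤ Real.log k.factorial := by
  have hk0 : (0 : ℝ) < k := by exact_mod_cast hk
  have h1 := Real.pow_div_factorial_le_exp (k : ℝ) hk0.le k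
  rw [← Real.log_le_iff_le_exp (by positivity), Real.log_div (by positivity) (by positivity),
    Real.log_pow] at h1
  linarith

theorem log_sqrt {x : ℝ} (hx : 0 < x) : Real.log x + 1 ≤ 2 * Real.sqrt x := by
  have h1 : Real.log x = 2 * Real.log (Real.sqrt x) := by
    rw [Real.log_sqrt hx.le]
    ring
  have h2 := Real.log_le_sub_one_of_pos (Real.sqrt_pos.2 hx)
  rw [h1]
  linarith

/-! ### The tails -/

section

variable {P : ℕ → ℝ} (hP : ∀ k, 0 ≤ P k ∧ P k ≤ 1)

include hP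

theorem summ {x : ℝ} (hx : 0 ≤ x) : Summable fun k : ℕ => x ^ k / k.factorial * P k := by
  refine Summable.of_nonneg_of_le (fun k => ?_) (fun k => ?_) (Real.summable_pow_div_factorial x)
  · exact mul_nonneg (by positivity) (hP k).1
  · exact mul_le_of_le_one_right (by positivity) (hP k).2

theorem term_le {x : ℝ} (hx : 0 ≤ x) (k : ℕ) : x ^ k / k.factorial * P k ≤
    ∑' k : ℕ, x ^ k / k.factorial * P k :=
  (summ hP hx).le_tsum k fun j _ => mul_nonneg (by positivity) (hP j).1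

theorem T1 {x y : ℝ} (hy : 0 < y) (hxy : y ≤ x) (k : ℕ) :
    ∑ j ∈ range k, x ^ j / j.factorial * P j ≤
      (x / y) ^ k * ∑' k : ℕ, y ^ k / k.factorial * P k := by
  have hr : 1 ≤ x / y := by rwa [one_le_div hy]
  have hs := summ hP hy.le
  refine le_trans ?_ (mul_le_mul_of_nonneg_left (hs.sum_le_tsum (range k) fun j _ =>
    mul_nonneg (by positivity) (hP j).1) (by positivity))
  rw [mul_sum]
  refine sum_le_sum fun j hj => ?_
  have h1 : (x / y) ^ j ≤ (x / y) ^ k := pow_le_pow_right₀ hr (mem_range.1 hj).le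
  have h2 : x ^ j / j.factorial * P j = (x / y) ^ j * (y ^ j / j.factorial * P j) := by
    rw [div_pow]
    field_simp
  rw [h2]
  exact mul_le_mul_of_nonneg_right h1 (mul_nonneg (by positivity) (hP j).1)

theorem T2 {x y : ℝ} (hx : 0 < x) (hxy : x ≤ y) (m : ℕ) :
    ∑' j : ℕ, x ^ (j + m) / (j + m).factorial * P (j + m) ≤
      (x / y) ^ m * ∑' k : ℕ, y ^ k / k.factorial * P k := by
  have hy : 0 < y := lt_of_lt_of_le hx hxy
  have hr : x / y ≤ 1 := by rwa [div_le_one hy]
  have hr0 : 0 ≤ x / y := by positivity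
  have hs := summ hP hy.le
  have hsx := summ hP hx.le
  have h1 : ∑' j : ℕ, y ^ (j + m) / (j + m).factorial * P (j + m) ≤
      ∑' k : ℕ, y ^ k / k.factorial * P k := by
    rw [← hs.sum_add_tsum_nat_add m]
    have : 0 ≤ ∑ i ∈ range m, y ^ i / i.factorial * P i :=
      sum_nonneg fun j _ => mul_nonneg (by positivity) (hP j).1
    linarith
  refine le_trans ?_ (mul_le_mul_of_nonneg_left h1 (by positivity))
  rw [← tsum_mul_left]
  refine ((summable_nat_add_iff m).2 hsx).tsum_le_tsum (fun j => ?_)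
    (((summable_nat_add_iff m).2 hs).mul_left _)
  have h2 : x ^ (j + m) / (j + m).factorial * P (j + m) =
      (x / y) ^ (j + m) * (y ^ (j + m) / (j + m).factorial * P (j + m)) := by
    rw [div_pow]
    field_simp
  rw [h2]
  refine mul_le_mul_of_nonneg_right ?_ (mul_nonneg (by positivity) (hP _).1)
  rw [pow_add]
  exact mul_le_of_le_one_left (by positivity) (pow_le_one₀ hr0 hr)

omit hP in
theorem T3 {x : ℝ} {m j : ℕ} (hm : (m : ℝ) ≤ x) (hj : j ≤ m) :
    x ^ j / j.factorial ≤ x ^ m / m.factorial := by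
  induction m, hj using Nat.le_induction with
  | base => exact le_rfl
  | succ m hjm ih =>
    have h0 : (0 : ℝ) ≤ m := Nat.cast_nonneg m
    push_cast at hm
    have hx : 0 ≤ x := by linarith
    refine (ih (by linarith)).trans ?_
    rw [Nat.factorial_succ, pow_succ, Nat.cast_mul, mul_comm ((m + 1 : ℕ) : ℝ), mul_div_mul_comm]
    refine le_mul_of_one_le_right (by positivity) ?_
    rw [one_le_div (by positivity)]
    push_cast
    linarith

theorem T4 (hA : Antitone P) {x : ℝ} (hx : 0 < x) {k m : ℕ} (hm : (m : ℝ) ≤ x) {Z : ℝ}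
    (hZ : Z = ∑' k : ℕ, x ^ k / k.factorial * P k)
    (h1 : ∑ j ∈ range k, x ^ j / j.factorial * P j ≤ Z / 4)
    (h2 : ∑' j : ℕ, x ^ (j + m) / (j + m).factorial * P (j + m) ≤ Z / 4) :
    Z / 2 ≤ m * (x ^ m / m.factorial * P k) := by
  have hs := (summ hP hx.le).sum_add_tsum_nat_add m
  rw [← hZ] at hs
  have h3 : ∑ j ∈ range m, x ^ j / j.factorial * P j ≤
      Z / 4 + ∑ j ∈ (range m).filter (fun j => ¬ j < k), x ^ j / j.factorial * P j := by
    rw [← sum_filter_add_sum_filter_not (range m) (fun j => j < k)]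
    refine add_le_add_left (le_trans ?_ h1) _
    refine sum_le_sum_of_subset_of_nonneg ?_ fun j _ _ => mul_nonneg (by positivity) (hP j).1
    intro j hj
    exact mem_range.2 (mem_filter.1 hj).2
  have h4 : ∑ j ∈ (range m).filter (fun j => ¬ j < k), x ^ j / j.factorial * P j ≤
      m * (x ^ m / m.factorial * P k) := by
    have h5 : ∑ j ∈ (range m).filter (fun j => ¬ j < k), x ^ j / j.factorial * P j ≤
        ∑ j ∈ (range m).filter (fun j => ¬ j < k), x ^ m / m.factorial * P k := by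
      refine sum_le_sum fun j hj => ?_
      obtain ⟨hj1, hj2⟩ := mem_filter.1 hj
      exact mul_le_mul (T3 hm (mem_range.1 hj1).le) (hA (not_lt.1 hj2)) (hP j).1 (by positivity)
    refine h5.trans ?_
    rw [sum_const, nsmul_eq_mul]
    refine mul_le_mul_of_nonneg_right ?_ (mul_nonneg (by positivity) (hP k).1)
    have : ((range m).filter (fun j => ¬ j < k)).card ≤ m := by
      simpa using card_filter_le (range m) (fun j => ¬ j < k)
    exact_mod_cast this
  linarith

end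

/-! ### The comparisons -/

theorem R1 {ε η ε₁ D a : ℝ} (hε : 0 < ε) (hε1 : ε ≤ 1) (hη : η = ε / 8)
    (hε₁ : ε₁ = η ^ 2 / 24) (hD : D ≤ ε ^ 5 / 2048) (ha : ε ≤ a) :
    a * (Real.log (1 + η) + η * a) + (1 + ε₁) * (a + a ^ 2 / 2) + 2 * D ≤
      (1 - ε₁) * ((1 + η) * a + ((1 + η) * a) ^ 2 / 2) := by
  have hη0 : 0 < η := by rw [hη]; positivity
  have hη1 : η ≤ 1 / 8 := by rw [hη]; linarith
  have ha0 : 0 < a := by linarith
  have hl := log_up hη0.le (by linarith)
  have h1 : a * Real.log (1 + η) ≤ a * (η - η ^ 2 / 4) := mul_le_mul_of_nonneg_left hl ha0.le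
  have hε₁0 : 0 < ε₁ := by rw [hε₁]; positivity
  -- the error
  have h2 : (1 + η) * a + ((1 + η) * a) ^ 2 / 2 + (a + a ^ 2 / 2) ≤ 3 * (a + a ^ 2) := by
    nlinarith [mul_pos ha0 ha0, mul_le_mul_of_nonneg_right hη1 ha0.le,
      mul_le_mul_of_nonneg_right hη1 (mul_pos ha0 ha0).le,
      mul_le_mul_of_nonneg_right (show η ^ 2 ≤ 1 / 64 by nlinarith) (mul_pos ha0 ha0).le]
  have h3 : ε₁ * ((1 + η) * a + ((1 + η) * a) ^ 2 / 2 + (a + a ^ 2 / 2)) ≤
      ε₁ * (3 * (a + a ^ 2)) := mul_le_mul_of_nonneg_left h2 hε₁0.le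
  have h4 : ε₁ * (3 * (a + a ^ 2)) = η ^ 2 / 8 * (a + a ^ 2) := by rw [hε₁]; ring
  have h5 : 2 * D ≤ η ^ 2 / 8 * a := by
    have e1 : ε ^ 5 ≤ ε ^ 3 := pow_le_pow_of_le_one hε.le hε1 (by norm_num)
    have e2 : η ^ 2 / 8 * a ≥ η ^ 2 / 8 * ε := mul_le_mul_of_nonneg_left ha (by positivity)
    have e3 : η ^ 2 / 8 * ε = ε ^ 3 / 512 := by rw [hη]; ring
    have e4 : 0 < ε ^ 3 := by positivity
    linarith
  have h6 : 0 ≤ η ^ 2 / 8 * a ^ 2 := by positivity
  have h7 : 0 ≤ η ^ 2 * a ^ 2 := by positivity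
  nlinarith

theorem R2 {ε η ε₁ D w b : ℝ} (hε : 0 < ε) (hε1 : ε ≤ 1) (hη : η = ε / 8)
    (hε₁ : ε₁ = η ^ 2 / 24) (hD0 : 0 < D) (hD : D ≤ ε ^ 5 / 2048) (hw : ε ≤ w)
    (hb : (1 + η) * w - D ≤ b) :
    -(b * (Real.log (1 + η) + η * w)) + (1 + ε₁) * ((1 + η) * w + ((1 + η) * w) ^ 2 / 2) + 2 * D ≤
      (1 - ε₁) * (w + w ^ 2 / 2) := by
  have hη0 : 0 < η := by rw [hη]; positivity
  have hη1 : η ≤ 1 / 8 := by rw [hη]; linarith
  have hw0 : 0 < w := by linarith
  have hl := log_low hη0.le (by linarith)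
  have hl2 := log_up hη0.le (by linarith)
  have hl0 : 0 ≤ Real.log (1 + η) := Real.log_nonneg (by linarith)
  have hε₁0 : 0 < ε₁ := by rw [hε₁]; positivity
  have h0 : ((1 + η) * w - D) * (Real.log (1 + η) + η * w) ≤ b * (Real.log (1 + η) + η * w) :=
    mul_le_mul_of_nonneg_right hb (by positivity)
  have h1 : w * (η + η ^ 2 / 3) ≤ w * ((1 + η) * Real.log (1 + η)) :=
    mul_le_mul_of_nonneg_left hl hw0.le
  have h2 : (1 + η) * w + ((1 + η) * w) ^ 2 / 2 + (w + w ^ 2 / 2) ≤ 3 * (w + w ^ 2) := by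
    nlinarith [mul_pos hw0 hw0, mul_le_mul_of_nonneg_right hη1 hw0.le,
      mul_le_mul_of_nonneg_right hη1 (mul_pos hw0 hw0).le,
      mul_le_mul_of_nonneg_right (show η ^ 2 ≤ 1 / 64 by nlinarith) (mul_pos hw0 hw0).le]
  have h3 : ε₁ * ((1 + η) * w + ((1 + η) * w) ^ 2 / 2 + (w + w ^ 2 / 2)) ≤
      ε₁ * (3 * (w + w ^ 2)) := mul_le_mul_of_nonneg_left h2 hε₁0.le
  have h4 : ε₁ * (3 * (w + w ^ 2)) = η ^ 2 / 8 * (w + w ^ 2) := by rw [hε₁]; ring
  have h5 : D * (Real.log (1 + η) + η * w) ≤ D * (1 + w) := by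
    refine mul_le_mul_of_nonneg_left ?_ hD0.le
    nlinarith
  have e1 : ε ^ 5 ≤ ε ^ 3 := pow_le_pow_of_le_one hε.le hε1 (by norm_num)
  have e4 : 0 < ε ^ 3 := by positivity
  have h6 : 3 * D ≤ η ^ 2 / 8 * w := by
    have e2 : η ^ 2 / 8 * w ≥ η ^ 2 / 8 * ε := mul_le_mul_of_nonneg_left hw (by positivity)
    have e3 : η ^ 2 / 8 * ε = ε ^ 3 / 512 := by rw [hη]; ring
    linarith
  have h7 : D * w ≤ η ^ 2 / 8 * w * w := by
    refine mul_le_mul_of_nonneg_right ?_ hw0.le
    linarith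
  have h8 : 0 ≤ η ^ 2 * w := by positivity
  have h9 : 0 ≤ η ^ 2 * w ^ 2 := by positivity
  nlinarith

theorem N1 {η : ℝ} (h : 0 < η) (h1 : η ≤ 1 / 8) : (1 + η) * (1 + η) ≤ 2 := by nlinarith

theorem N2 {ε a s : ℝ} (hε : 0 < ε) (hεa : ε ≤ a) (hs : 0 < s) (h : 32 ≤ ε ^ 2 * s) :
    4 * a ≤ ε / 8 * a ^ 2 * s := by
  have ha : 0 < a := lt_of_lt_of_le hε hεa
  have f1 : ε * s * ε ≤ ε * s * a := mul_le_mul_of_nonneg_left hεa (by positivity)
  have f2 : 32 ≤ ε * s * a := by linarith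
  have f3 := mul_le_mul_of_nonneg_right f2 ha.le
  linarith

theorem N3 {ε a w : ℝ} (hε : 0 < ε) (hε1 : ε ≤ 1) (hεa : ε ≤ a) (hw0 : 0 ≤ w) (e1 : w ≤ 2 * a) :
    ε ^ 2 / 1536 * (w + w ^ 2 / 2) ≤ ε / 8 * a ^ 2 := by
  have ha : 0 < a := lt_of_lt_of_le hε hεa
  have e2 : w ^ 2 ≤ 4 * a ^ 2 := by nlinarith
  have e3 : ε * a ≤ a ^ 2 := by nlinarith
  have e4 : ε ^ 2 / 1536 * (w + w ^ 2 / 2) ≤ ε ^ 2 / 1536 * (2 * a + 2 * a ^ 2) :=
    mul_le_mul_of_nonneg_left (by linarith) (by positivity)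
  have e5 : ε ^ 2 / 1536 * (2 * a + 2 * a ^ 2) = ε / 768 * (ε * a) + ε * ε / 768 * a ^ 2 := by
    ring
  have e6 : ε / 768 * (ε * a) ≤ ε / 768 * a ^ 2 := mul_le_mul_of_nonneg_left e3 (by positivity)
  have e7 : ε * ε / 768 * a ^ 2 ≤ ε / 768 * a ^ 2 := by
    apply mul_le_mul_of_nonneg_right _ (sq_nonneg _)
    nlinarith
  have e8 : 0 ≤ ε * a ^ 2 := by positivity
  linarith

theorem N4 {η : ℝ} (h : 0 < η) (h1 : η ≤ 1 / 8) : (1 + η) ^ 2 * (1 / 2 + η) ≤ 1 / 2 + 3 * η := by
  nlinarith [mul_pos h h, mul_pos (mul_pos h h) h]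

theorem N5 {ε a : ℝ} (hε : 0 < ε) (hεa : ε ≤ a) {k s : ℝ} (hk : 0 < k) (hs : 0 < s)
    (hss : s * s = k) (h : 32 ≤ ε ^ 2 * s) : 2 * s ≤ ε / 2 * (k * a) := by
  have ha : 0 < a := lt_of_lt_of_le hε hεa
  have e1 : s * 32 ≤ s * (ε ^ 2 * s) := mul_le_mul_of_nonneg_left h hs.le
  have e2 : s * (ε ^ 2 * s) = ε ^ 2 * k := by linear_combination (ε ^ 2) * hss
  have e3 := mul_le_mul_of_nonneg_left hεa (by positivity : 0 ≤ ε * k)
  have e4 : 0 < ε * (k * a) := by positivity
  linarith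

theorem N6 {ε a k : ℝ} (hε : 0 < ε) (hε1 : ε ≤ 1) (hεa : ε ≤ a) (hk0 : 0 < k) :
    ε ^ 2 / 1536 * (k + k * a / 2) ≤ ε / 2 * (k * a) := by
  have ha : 0 < a := lt_of_lt_of_le hε hεa
  have e1 : (k : ℝ) * ε ≤ k * a := mul_le_mul_of_nonneg_left hεa hk0.le
  have e2 : ε ^ 2 / 1536 * (k + k * a / 2) = ε / 1536 * (k * ε) + ε ^ 2 / 3072 * (k * a) := by
    ring
  have e3 : ε / 1536 * (k * ε) ≤ ε / 1536 * (k * a) :=
    mul_le_mul_of_nonneg_left e1 (by positivity)
  have e4 : ε ^ 2 / 3072 * (k * a) ≤ ε / 3072 * (k * a) := by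
    apply mul_le_mul_of_nonneg_right _ (by positivity)
    nlinarith
  have e5 : 0 ≤ ε * (k * a) := by positivity
  rw [e2]
  linarith

theorem he4 : Real.exp (-2) ≤ 1 / 4 := by
  have h1 := Real.add_one_le_exp (1 : ℝ)
  have h2 : Real.exp 2 = Real.exp 1 * Real.exp 1 := by rw [← Real.exp_add]; norm_num
  have h3 : 4 ≤ Real.exp 2 := by rw [h2]; nlinarith
  rw [Real.exp_neg, inv_eq_one_div]
  exact one_div_le_one_div_of_le (by norm_num) h3

theorem canon : Pool.Agent.N549.HG.S_CANON := by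
  intro ε₀ hε₀
  obtain ⟨ε, hεd⟩ : ∃ ε : ℝ, ε = min ε₀ 1 := ⟨_, rfl⟩
  have hε : 0 < ε := by rw [hεd]; exact lt_min hε₀ one_pos
  have hεε : ε ≤ ε₀ := by rw [hεd]; exact min_le_left _ _
  have hε1 : ε ≤ 1 := by rw [hεd]; exact min_le_right _ _
  obtain ⟨η, hη⟩ : ∃ η : ℝ, η = ε / 8 := ⟨_, rfl⟩
  have hη0 : 0 < η := by rw [hη]; positivity
  have hη1 : η ≤ 1 / 8 := by rw [hη]; linarith
  obtain ⟨ε₁, hε₁⟩ : ∃ ε₁ : ℝ, ε₁ = η ^ 2 / 24 := ⟨_, rfl⟩
  have hε₁0 : 0 < ε₁ := by rw [hε₁]; positivity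
  have hε₁e : ε₁ = ε ^ 2 / 1536 := by rw [hε₁, hη]; ring
  refine ⟨ε₁, hε₁0, ε ^ 5 / 2048, by positivity, ?_⟩
  intro D X hD hDD P hA hP hZ k hk hkX
  obtain ⟨a, ha⟩ : ∃ a : ℝ, a = k * D := ⟨_, rfl⟩
  rw [← ha] at hk hkX
  have hεa : ε ≤ a := hεε.trans hk
  have ha0 : 0 < a := by linarith
  have haX : (1 + ε) * a ≤ X :=
    (mul_le_mul_of_nonneg_right (by linarith) ha0.le).trans hkX
  have hk0 : (0 : ℝ) < k := by
    by_contra h
    push Not at h
    have : a ≤ 0 := by rw [ha]; exact mul_nonpos_of_nonpos_of_nonneg h hD.le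
    linarith
  have hk1 : 1 ≤ k := by
    rcases Nat.eq_zero_or_pos k with h | h
    · rw [h] at hk0; simp at hk0
    · exact h
  have hkD : k = a / D := by rw [ha]; field_simp
  -- `k` is large
  have hklarge : 1024 / ε ^ 4 ≤ (k : ℝ) := by
    rw [hkD, div_le_div_iff₀ (by positivity) hD]
    have e1 : 1024 * D ≤ ε ^ 5 := by
      have : 0 < ε ^ 5 := by positivity
      linarith
    have e2 : ε * ε ^ 4 ≤ a * ε ^ 4 := mul_le_mul_of_nonneg_right hεa (by positivity)
    have e3 : ε * ε ^ 4 = ε ^ 5 := by ring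
    linarith
  have hsqrt : 32 / ε ^ 2 ≤ Real.sqrt k := by
    apply Real.le_sqrt_of_sq_le
    have : (32 / ε ^ 2) ^ 2 = 1024 / ε ^ 4 := by ring
    rw [this]
    exact hklarge
  have hsk : 32 ≤ ε ^ 2 * Real.sqrt k := by
    rw [div_le_iff₀ (by positivity)] at hsqrt
    linarith
  have hss : Real.sqrt k * Real.sqrt k = k := Real.mul_self_sqrt hk0.le
  have hsk0 : 0 < Real.sqrt k := Real.sqrt_pos.2 hk0
  -- positivity of the partition function
  obtain ⟨Z, hZd⟩ : ∃ Z : ℝ → ℝ, Z = fun w =>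
    ∑' k : ℕ, (w * Real.exp w / D) ^ k / k.factorial * P k := ⟨_, rfl⟩
  have hZ' : ∀ w, 0 < w → w ≤ X → (1 - ε₁) * (w + w ^ 2 / 2) ≤ D * Real.log (Z w) ∧
      D * Real.log (Z w) ≤ (1 + ε₁) * (w + w ^ 2 / 2) := by
    intro w hw hwX
    rw [hZd]
    exact hZ w hw hwX
  have hε₁1 : ε₁ < 1 := by
    rw [hε₁e]
    have : ε ^ 2 ≤ 1 := pow_le_one₀ hε.le hε1
    linarith
  have hlam : ∀ w : ℝ, 0 < w → 0 < w * Real.exp w / D := fun w hw => by positivity
  have hZn : ∀ w, 0 < w → 0 ≤ Z w := by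
    intro w hw
    rw [hZd]
    exact tsum_nonneg fun j => mul_nonneg (by have := (hlam w hw).le; positivity) (hP j).1
  have hZp : ∀ w, 0 < w → w ≤ X → 0 < Z w := by
    intro w hw hwX
    rcases (hZn w hw).eq_or_lt with h | h
    · exfalso
      have h1 := (hZ' w hw hwX).1
      rw [← h, Real.log_zero, mul_zero] at h1
      have : 0 < (1 - ε₁) * (w + w ^ 2 / 2) := mul_pos (by linarith) (by positivity)
      linarith
    · exact h
  have hZup : ∀ w, 0 < w → w ≤ X → Z w ≤ Real.exp ((1 + ε₁) * (w + w ^ 2 / 2) / D) := by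
    intro w hw hwX
    rw [← Real.log_le_iff_le_exp (hZp w hw hwX), le_div_iff₀ hD]
    linarith [(hZ' w hw hwX).2]
  have hZlow : ∀ w, 0 < w → w ≤ X → Real.exp ((1 - ε₁) * (w + w ^ 2 / 2) / D) ≤ Z w := by
    intro w hw hwX
    rw [← Real.le_log_iff_exp_le (hZp w hw hwX), div_le_iff₀ hD]
    linarith [(hZ' w hw hwX).1]
  have haX' : a ≤ X := le_trans (le_mul_of_one_le_left ha0.le (by linarith)) haX
  -- the upper bound
  have hupper : 0 < P k → Real.log (P k) + k ^ 2 * D / 2 ≤ ε * (k ^ 2 * D) := by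
    intro hPk
    have h1 := term_le hP (hlam a ha0).le k
    have h2 : Real.log ((a * Real.exp a / D) ^ k / k.factorial * P k) ≤
        (1 + ε₁) * (a + a ^ 2 / 2) / D := by
      have hl := hlam a ha0
      rw [Real.log_le_iff_le_exp (by positivity)]
      refine h1.trans ?_
      have := hZup a ha0 haX'
      rw [hZd] at this
      exact this
    have hl := hlam a ha0
    rw [Real.log_mul (by positivity) hPk.ne', Real.log_div (by positivity) (by positivity),
      Real.log_pow] at h2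
    have h3 : Real.log (a * Real.exp a / D) = Real.log k + a := by
      have : a * Real.exp a / D = k * Real.exp a := by rw [hkD]; ring
      rw [this, Real.log_mul hk0.ne' (Real.exp_pos _).ne', Real.log_exp]
    rw [h3] at h2
    have h4 := log_fact_up k hk1
    have h5 : (1 + ε₁) * (a + a ^ 2 / 2) / D = (1 + ε₁) * (k + k * a / 2) := by
      rw [hkD]
      ring
    rw [h5] at h2
    have h6 : (k : ℝ) ^ 2 * D = k * a := by rw [ha]; ring
    rw [h6]
    have h7 := log_sqrt hk0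
    have h8 : 2 * Real.sqrt k ≤ ε / 2 * (k * a) := N5 hε hεa hk0 hsk0 hss hsk
    have h9 : ε₁ * (k + k * a / 2) ≤ ε / 2 * (k * a) := by
      rw [hε₁e]
      exact N6 hε hε1 hεa hk0
    linarith
  -- the lower bound
  obtain ⟨w, hw⟩ : ∃ w : ℝ, w = (1 + η) * a := ⟨_, rfl⟩
  have haw : a ≤ w := by rw [hw]; exact le_mul_of_one_le_left ha0.le (by linarith)
  have hw0 : 0 < w := by linarith
  have hεw : ε ≤ w := by linarith
  obtain ⟨w₂, hw₂⟩ : ∃ w₂ : ℝ, w₂ = (1 + η) * w := ⟨_, rfl⟩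
  have hww : w ≤ w₂ := by rw [hw₂]; exact le_mul_of_one_le_left hw0.le (by linarith)
  have hw20 : 0 < w₂ := by linarith
  have hw2X : w₂ ≤ X := by
    refine le_trans ?_ haX
    rw [hw₂, hw, ← mul_assoc]
    apply mul_le_mul_of_nonneg_right _ ha0.le
    rw [hη]
    have : ε ^ 2 ≤ ε := by rw [sq]; exact mul_le_of_le_one_left hε.le hε1
    linarith
  have hwX : w ≤ X := hww.trans hw2X
  obtain ⟨m, hm⟩ : ∃ m : ℕ, m = ⌊w₂ / D⌋₊ := ⟨_, rfl⟩
  have hm1 : (m : ℝ) * D ≤ w₂ := by
    rw [hm, ← le_div_iff₀ hD]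
    exact Nat.floor_le (by positivity)
  have hm2 : w₂ - D ≤ m * D := by
    have := Nat.lt_floor_add_one (w₂ / D)
    rw [← hm, div_lt_iff₀ hD] at this
    linarith
  have hmlam : (m : ℝ) ≤ w * Real.exp w / D := by
    rw [le_div_iff₀ hD]
    refine hm1.trans ?_
    rw [hw₂, mul_comm (1 + η) w]
    apply mul_le_mul_of_nonneg_left _ hw0.le
    have := Real.add_one_le_exp w
    linarith
  have he2 : Real.exp (-2) ≤ 1 / 4 := he4
  -- the lower tail
  have ht1 : ∑ j ∈ range k, (w * Real.exp w / D) ^ j / j.factorial * P j ≤ Z w / 4 := by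
    have hmono : a * Real.exp a / D ≤ w * Real.exp w / D := by
      apply div_le_div_of_nonneg_right _ hD.le
      exact mul_le_mul haw (Real.exp_le_exp.2 haw) (Real.exp_pos _).le hw0.le
    refine (T1 hP (hlam a ha0) hmono k).trans ?_
    have h1 := hZup a ha0 haX'
    rw [hZd] at h1
    have h2 : ((w * Real.exp w / D) / (a * Real.exp a / D)) ^ k =
        Real.exp (k * (Real.log (1 + η) + η * a)) := by
      have e1 : (w * Real.exp w / D) / (a * Real.exp a / D) =
          Real.exp (Real.log (1 + η) + η * a) := by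
        rw [Real.exp_add, Real.exp_log (by positivity), hw]
        have e2 : Real.exp ((1 + η) * a) = Real.exp (η * a) * Real.exp a := by
          rw [← Real.exp_add]
          congr 1
          ring
        rw [e2]
        have := (Real.exp_pos a).ne'
        field_simp
      rw [e1, ← Real.exp_nat_mul]
    rw [h2]
    refine (mul_le_mul_of_nonneg_left h1 (Real.exp_pos _).le).trans ?_
    rw [← Real.exp_add]
    have h3 := R1 hε hε1 hη hε₁ hDD hεa
    rw [← hw] at h3
    have h4 : k * (Real.log (1 + η) + η * a) + (1 + ε₁) * (a + a ^ 2 / 2) / D ≤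
        (1 - ε₁) * (w + w ^ 2 / 2) / D + -2 := by
      have e1 : k * (Real.log (1 + η) + η * a) + (1 + ε₁) * (a + a ^ 2 / 2) / D =
          (a * (Real.log (1 + η) + η * a) + (1 + ε₁) * (a + a ^ 2 / 2)) / D := by
        rw [hkD]
        ring
      have e2 : (1 - ε₁) * (w + w ^ 2 / 2) / D + -2 =
          ((1 - ε₁) * (w + w ^ 2 / 2) - 2 * D) / D := by
        field_simp
        ring
      rw [e1, e2]
      apply div_le_div_of_nonneg_right _ hD.le
      linarith
    refine (Real.exp_le_exp.2 h4).trans ?_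
    rw [Real.exp_add]
    have h5 := mul_le_mul (hZlow w hw0 hwX) he2 (Real.exp_pos _).le (hZn w hw0)
    linarith
  -- the upper tail
  have ht2 : ∑' j : ℕ, (w * Real.exp w / D) ^ (j + m) / (j + m).factorial * P (j + m) ≤
      Z w / 4 := by
    have hmono : w * Real.exp w / D ≤ w₂ * Real.exp w₂ / D := by
      apply div_le_div_of_nonneg_right _ hD.le
      exact mul_le_mul hww (Real.exp_le_exp.2 hww) (Real.exp_pos _).le hw20.le
    refine (T2 hP (hlam w hw0) hmono m).trans ?_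
    have h1 := hZup w₂ hw20 hw2X
    rw [hZd] at h1
    have h2 : ((w * Real.exp w / D) / (w₂ * Real.exp w₂ / D)) ^ m =
        Real.exp (m * -(Real.log (1 + η) + η * w)) := by
      have e1 : (w * Real.exp w / D) / (w₂ * Real.exp w₂ / D) =
          Real.exp (-(Real.log (1 + η) + η * w)) := by
        rw [Real.exp_neg, Real.exp_add, Real.exp_log (by positivity), hw₂]
        have e2 : Real.exp ((1 + η) * w) = Real.exp (η * w) * Real.exp w := by
          rw [← Real.exp_add]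
          congr 1
          ring
        rw [e2]
        have := (Real.exp_pos w).ne'
        have := (Real.exp_pos (η * w)).ne'
        field_simp
      rw [e1, ← Real.exp_nat_mul]
    rw [h2]
    refine (mul_le_mul_of_nonneg_left h1 (Real.exp_pos _).le).trans ?_
    rw [← Real.exp_add]
    have h3 := R2 (b := m * D) hε hε1 hη hε₁ hD hDD hεw (by rw [← hw₂]; exact hm2)
    rw [← hw₂] at h3
    have h4 : m * -(Real.log (1 + η) + η * w) + (1 + ε₁) * (w₂ + w₂ ^ 2 / 2) / D ≤
        (1 - ε₁) * (w + w ^ 2 / 2) / D + -2 := by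
      have e1 : m * -(Real.log (1 + η) + η * w) + (1 + ε₁) * (w₂ + w₂ ^ 2 / 2) / D =
          (-(m * D * (Real.log (1 + η) + η * w)) + (1 + ε₁) * (w₂ + w₂ ^ 2 / 2)) / D := by
        field_simp
      have e2 : (1 - ε₁) * (w + w ^ 2 / 2) / D + -2 =
          ((1 - ε₁) * (w + w ^ 2 / 2) - 2 * D) / D := by
        field_simp
        ring
      rw [e1, e2]
      apply div_le_div_of_nonneg_right _ hD.le
      linarith
    refine (Real.exp_le_exp.2 h4).trans ?_
    rw [Real.exp_add]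
    have h5 := mul_le_mul (hZlow w hw0 hwX) he2 (Real.exp_pos _).le (hZn w hw0)
    linarith
  have hmid := T4 hP hA (hlam w hw0) (k := k) hmlam (Z := Z w) (by rw [hZd]) ht1 ht2
  have hZw := hZp w hw0 hwX
  have hPk : 0 < P k := by
    rcases (hP k).1.eq_or_lt with h | h
    · exfalso
      rw [← h, mul_zero, mul_zero] at hmid
      linarith
    · exact h
  have hm0 : 1 ≤ m := by
    rcases Nat.eq_zero_or_pos m with h | h
    · exfalso
      rw [h, Nat.cast_zero, zero_mul] at hmid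
      linarith
    · exact h
  have hm0' : (0 : ℝ) < m := by exact_mod_cast hm0
  refine ⟨hPk, ?_⟩
  -- logarithms
  have hlower : -(1 / 2 + ε) * a ^ 2 ≤ D * Real.log (P k) := by
    have hlw := hlam w hw0
    have h1 : Real.log (Z w) - Real.log 2 ≤ Real.log m + (m * Real.log (w * Real.exp w / D) -
        Real.log m.factorial + Real.log (P k)) := by
      have := Real.log_le_log (by positivity) hmid
      rw [Real.log_div hZw.ne' (by norm_num), Real.log_mul hm0'.ne' (by positivity),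
        Real.log_mul (by positivity) hPk.ne', Real.log_div (by positivity) (by positivity),
        Real.log_pow] at this
      exact this
    have h2 : Real.log (w * Real.exp w / D) = Real.log w + w - Real.log D := by
      rw [Real.log_div (by positivity) hD.ne', Real.log_mul hw0.ne' (Real.exp_pos _).ne',
        Real.log_exp]
    rw [h2] at h1
    have h3 := log_fact_low m hm0
    have h4 := (hZ' w hw0 hwX).1
    obtain ⟨b, hb⟩ : ∃ b : ℝ, b = m * D := ⟨_, rfl⟩
    have hb0 : 0 < b := by rw [hb]; positivity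
    have h5 : Real.log m = Real.log b - Real.log D := by
      rw [hb, Real.log_mul hm0'.ne' hD.ne']
      ring
    -- `D` times the inequality
    have h6 : (1 - ε₁) * (w + w ^ 2 / 2) + b * (Real.log b - Real.log w - 1 - w) -
        D * (Real.log 2 + Real.log m) ≤ D * Real.log (P k) := by
      have e1 := mul_le_mul_of_nonneg_left h1 hD.le
      have e2 := mul_le_mul_of_nonneg_left h3 hD.le
      rw [h5] at e2
      have e3 : D * (m * (Real.log b - Real.log D) - m) = b * (Real.log b - Real.log D) - b := by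
        rw [hb]
        ring
      have e4 : D * (Real.log m + (m * (Real.log w + w - Real.log D) -
          Real.log m.factorial + Real.log (P k))) = D * Real.log m +
          b * (Real.log w + w - Real.log D) - D * Real.log m.factorial + D * Real.log (P k) := by
        rw [hb]
        ring
      rw [e4] at e1
      rw [e3] at e2
      linarith
    -- `b (log (b / w) - 1 - w) >= - w - b w`
    have h7 : b * (Real.log b - Real.log w - 1 - w) ≥ -w - b * w := by
      have e1 := Real.one_sub_inv_le_log_of_pos (show 0 < b / w by positivity)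
      rw [Real.log_div hb0.ne' hw0.ne', inv_div] at e1
      have e2 := mul_le_mul_of_nonneg_left e1 hb0.le
      have e3 : b * (1 - w / b) = b - w := by field_simp
      rw [e3] at e2
      linarith
    have h8 : b * w ≤ (1 + η) * w ^ 2 := by
      have := mul_le_mul_of_nonneg_right hm1 hw0.le
      rw [← hb, hw₂] at this
      linarith
    -- the logarithmic term
    have h9 : D * (Real.log 2 + Real.log m) ≤ ε / 8 * a ^ 2 := by
      have e0 : (m : ℝ) ≤ 2 * k := by
        have e1 : (m : ℝ) * D ≤ 2 * k * D := by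
          refine hm1.trans ?_
          rw [hw₂, hw, ← mul_assoc, mul_assoc 2, ← ha]
          exact mul_le_mul_of_nonneg_right (N1 hη0 hη1) ha0.le
        exact le_of_mul_le_mul_right e1 hD
      have e2 : Real.log 2 + Real.log m ≤ Real.log (4 * k) := by
        rw [← Real.log_mul (by norm_num) hm0'.ne']
        apply Real.log_le_log (by positivity)
        linarith
      have e3 := log_sqrt (show 0 < 4 * (k : ℝ) by positivity)
      have e4 : Real.sqrt (4 * k) = 2 * Real.sqrt k := by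
        rw [Real.sqrt_mul (by norm_num), show (4 : ℝ) = 2 ^ 2 by norm_num, Real.sqrt_sq (by norm_num)]
      rw [e4] at e3
      have e5 : Real.log 2 + Real.log m ≤ 4 * Real.sqrt k := by linarith
      have e6 := mul_le_mul_of_nonneg_left e5 hD.le
      refine e6.trans ?_
      -- `4 D sqrt k <= eps / 8 a^2`, `D k = a`
      have e7 : D * (4 * Real.sqrt k) * Real.sqrt k = 4 * a := by
        rw [ha]
        linear_combination (4 * D) * hss
      have e8 : 4 * a ≤ ε / 8 * a ^ 2 * Real.sqrt k := N2 hε hεa hsk0 hsk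
      rw [← e7] at e8
      exact le_of_mul_le_mul_right e8 hsk0
    have h10 : ε₁ * (w + w ^ 2 / 2) ≤ ε / 8 * a ^ 2 := by
      rw [hε₁e]
      refine N3 hε hε1 hεa hw0.le ?_
      rw [hw]
      exact mul_le_mul_of_nonneg_right (by linarith) ha0.le
    have h11 : w ^ 2 * (1 / 2 + η) ≤ a ^ 2 * (1 / 2 + 3 * η) := by
      rw [hw]
      have : ((1 + η) * a) ^ 2 * (1 / 2 + η) = a ^ 2 * ((1 + η) ^ 2 * (1 / 2 + η)) := by ring
      rw [this]
      exact mul_le_mul_of_nonneg_left (N4 hη0 hη1) (sq_nonneg _)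
    have h12 : a ^ 2 * (1 / 2 + 3 * η) = a ^ 2 * (1 / 2 + 3 * ε / 8) := by rw [hη]; ring
    have h13 := mul_nonneg hε.le (sq_nonneg a)
    linarith
  have h6 : (k : ℝ) ^ 2 * D = a ^ 2 / D := by rw [ha]; field_simp
  rw [abs_le]
  have hεk : ε * ((k : ℝ) ^ 2 * D) ≤ ε₀ * ((k : ℝ) ^ 2 * D) :=
    mul_le_mul_of_nonneg_right hεε (by positivity)
  constructor
  · have h7 : -(1 / 2 + ε) * ((k : ℝ) ^ 2 * D) ≤ Real.log (P k) := by
      rw [h6, ← mul_div_assoc, div_le_iff₀ hD]
      linarith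
    linarith
  · exact (hupper hPk).trans hεk

end Pool.Agent.N424.HG
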