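import Pool.Agent.N549.HG.Stm3
import Pool.Agent.H818R2.Base2

/-!
# HG/PER: from packings of the torus to periodic packings (helper424)
-/

set_option autoImplicit false

namespace Pool.Agent.N424.HG

open MeasureTheory Metric Filter Set
open scoped Topology
open Pool.Agent.N549.HG (Torus sqd ballVol)
open Pool.Agent.H818R2 (IsPacking body upperDensity optDensity rho vb vb_pos vol_ball ratio_bdd
  ratio_cobdd le_optDensity)

/-- Euclidean space -/
abbrev EE (n : ℕ) : Type := EuclideanSpace ℝ (Fin n)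

theorem cube_vol {n : ℕ} (z : Fin n → ℤ) :
    volume {x : EE n | ∀ l, (z l : ℝ) ≤ x l ∧ x l < z l + 1} = 1 := by
  have h := PiLp.volume_preserving_ofLp (Fin n)
  have e : {x : EE n | ∀ l, (z l : ℝ) ≤ x l ∧ x l < z l + 1} =
      WithLp.ofLp ⁻¹' (Set.univ.pi fun l => Set.Ico (z l : ℝ) (z l + 1)) := by
    ext x
    simp
  rw [e, h.measure_preimage (MeasurableSet.univ_pi fun _ => measurableSet_Ico).nullMeasurableSet,
    Real.volume_pi_Ico]
  simp

/-- the integer vector -/
noncomputable def zv {n : ℕ} (z : Fin n → ℤ) : EE n := WithLp.toLp 2 fun l => (z l : ℝ)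

theorem norm_near {n : ℕ} {x y : EE n} (h : ∀ l, |x l - y l| ≤ 1) : ‖x - y‖ ≤ Real.sqrt n := by
  rw [EuclideanSpace.norm_eq]
  apply Real.sqrt_le_sqrt
  calc ∑ i, ‖(x - y) i‖ ^ 2 ≤ ∑ _i : Fin n, (1 : ℝ) := by
        refine Finset.sum_le_sum fun i _ => ?_
        have h1 : ‖(x - y) i‖ ≤ 1 := h i
        have h2 := norm_nonneg ((x - y) i)
        nlinarith
    _ = n := by simp

/-- the integer vectors of norm at most `R` -/
theorem fin_int {n : ℕ} (R : ℝ) : {z : Fin n → ℤ | ‖zv z‖ ≤ R}.Finite := by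
  refine (Set.Finite.pi' (t := fun _ : Fin n => Set.Icc (-⌈|R|⌉) ⌈|R|⌉)
    (fun _ => Set.finite_Icc _ _)).subset ?_
  intro z hz l
  have h1 : |(z l : ℝ)| ≤ |R| := by
    have h2 : ‖(zv z) l‖ ≤ ‖zv z‖ := PiLp.norm_apply_le (zv z) l
    have h3 : ‖(zv z) l‖ = |(z l : ℝ)| := rfl
    rw [← h3]
    exact (h2.trans hz).trans (le_abs_self R)
  have h4 : |z l| ≤ ⌈|R|⌉ := by
    have : (|z l| : ℝ) ≤ ⌈|R|⌉ := h1.trans (Int.le_ceil _)
    exact_mod_cast this
  exact ⟨(abs_le.1 h4).1, (abs_le.1 h4).2⟩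

theorem norm_circle_le (a : ℝ) : ‖(a : UnitAddCircle)‖ ≤ |a| := by
  rw [UnitAddCircle.norm_eq]
  have := round_le a 0
  simpa using this

theorem coe_int (m : ℤ) : ((m : ℝ) : UnitAddCircle) = 0 := by
  rw [AddCircle.coe_eq_zero_iff]
  exact ⟨m, by simp⟩

section

variable {n N : ℕ} {r : ℝ} (hr : 0 < r) (hr1 : r ≤ 1) {c : Fin N → Torus n}
  (hc : ∀ i j, i ≠ j → r ^ 2 ≤ sqd (c i) (c j)) {lf : UnitAddCircle → ℝ}
  (hlf0 : ∀ x, 0 ≤ lf x) (hlf1 : ∀ x, lf x < 1) (hlf : ∀ x, (lf x : UnitAddCircle) = x)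

/-- the centres -/
noncomputable def cen (c : Fin N → Torus n) (lf : UnitAddCircle → ℝ)
    (q : Fin N × (Fin n → ℤ)) : EE n := WithLp.toLp 2 fun l => lf (c q.1 l) + q.2 l

include hr hr1 hc hlf in
theorem cen_sep {q q' : Fin N × (Fin n → ℤ)} (h : q ≠ q') :
    r ≤ dist (cen c lf q) (cen c lf q') := by
  rw [EuclideanSpace.dist_eq]
  apply Real.le_sqrt_of_sq_le
  have hd : ∀ l, dist (cen c lf q l) (cen c lf q' l) ^ 2 =
      |lf (c q.1 l) + q.2 l - (lf (c q'.1 l) + q'.2 l)| ^ 2 := fun l => rfl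
  simp only [hd]
  by_cases hi : q.1 = q'.1
  · have hz : q.2 ≠ q'.2 := fun h' => h (Prod.ext hi h')
    obtain ⟨l, hl⟩ := Function.ne_iff.1 hz
    have h1 : (1 : ℝ) ≤ |lf (c q.1 l) + q.2 l - (lf (c q'.1 l) + q'.2 l)| ^ 2 := by
      rw [← hi]
      have e : lf (c q.1 l) + q.2 l - (lf (c q.1 l) + q'.2 l) = ((q.2 l - q'.2 l : ℤ) : ℝ) := by
        push_cast
        ring
      rw [e, ← Int.cast_abs]
      have h2 : 1 ≤ |q.2 l - q'.2 l| := Int.one_le_abs (sub_ne_zero.2 hl)
      have h3 : (1 : ℝ) ≤ (|q.2 l - q'.2 l| : ℤ) := by exact_mod_cast h2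
      nlinarith
    have h4 : |lf (c q.1 l) + q.2 l - (lf (c q'.1 l) + q'.2 l)| ^ 2 ≤
        ∑ l, |lf (c q.1 l) + q.2 l - (lf (c q'.1 l) + q'.2 l)| ^ 2 :=
      Finset.single_le_sum (f := fun l => |lf (c q.1 l) + q.2 l -
        (lf (c q'.1 l) + q'.2 l)| ^ 2) (fun l _ => by positivity) (Finset.mem_univ l)
    nlinarith
  · refine (hc _ _ hi).trans ?_
    unfold sqd
    refine Finset.sum_le_sum fun l _ => ?_
    have h1 : c q.1 l - c q'.1 l =
        ((lf (c q.1 l) + q.2 l - (lf (c q'.1 l) + q'.2 l) : ℝ) : UnitAddCircle) := by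
      rw [AddCircle.coe_sub, AddCircle.coe_add, AddCircle.coe_add, coe_int, coe_int, hlf, hlf,
        add_zero, add_zero]
    rw [h1]
    exact pow_le_pow_left₀ (norm_nonneg _) (norm_circle_le _) 2

/-- the packing -/
def XX (c : Fin N → Torus n) (lf : UnitAddCircle → ℝ) : Set (EE n) := Set.range (cen c lf)

include hr hr1 hc hlf in
theorem packing : IsPacking (XX c lf) (r / 2) := by
  refine ⟨by positivity, ?_⟩
  rintro _ ⟨q, rfl⟩ _ ⟨q', rfl⟩ hne
  have h : q ≠ q' := fun h' => hne (by rw [h'])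
  apply ball_disjoint_ball
  have := cen_sep hr hr1 hc hlf h
  linarith

include hr hr1 hc hlf0 hlf1 hlf in
/-- the volume in a ball -/
theorem vol_low {R : ℝ} (hR : 2 * Real.sqrt n + 1 < R) :
    (N : ℝ) * ballVol n (r / 2) * volume.real (ball (0 : EE n) (R - (2 * Real.sqrt n + 1))) ≤
      volume.real (ball (0 : EE n) R ∩ body (XX c lf) (r / 2)) := by
  have hsq : 0 ≤ Real.sqrt n := Real.sqrt_nonneg _
  obtain ⟨Zs, hZs⟩ : ∃ Zs : Finset (Fin n → ℤ), ∀ z, z ∈ Zs ↔ ‖zv z‖ ≤ R - Real.sqrt n - 1 :=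
    ⟨(fin_int (R - Real.sqrt n - 1)).toFinset, fun z => by simp⟩
  -- number of integer vectors
  have hcount : volume.real (ball (0 : EE n) (R - (2 * Real.sqrt n + 1))) ≤ Zs.card := by
    have hsub : ball (0 : EE n) (R - (2 * Real.sqrt n + 1)) ⊆
        ⋃ z ∈ Zs, {x : EE n | ∀ l, (z l : ℝ) ≤ x l ∧ x l < z l + 1} := by
      intro x hx
      rw [mem_ball, dist_zero_right] at hx
      rw [mem_iUnion₂]
      refine ⟨fun l => ⌊x l⌋, ?_, fun l => ⟨Int.floor_le _, Int.lt_floor_add_one _⟩⟩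
      rw [hZs]
      have h1 : ‖zv (fun l => ⌊x l⌋) - x‖ ≤ Real.sqrt n := by
        apply norm_near
        intro l
        show |(⌊x l⌋ : ℝ) - x l| ≤ 1
        rw [abs_le]
        constructor
        · linarith [Int.lt_floor_add_one (x l)]
        · linarith [Int.floor_le (x l)]
      have h2 : ‖zv (fun l => ⌊x l⌋)‖ ≤ ‖zv (fun l => ⌊x l⌋) - x‖ + ‖x‖ := by
        have := norm_add_le (zv (fun l => ⌊x l⌋) - x) x
        rwa [sub_add_cancel] at this
      linarith
    have h1 : volume (ball (0 : EE n) (R - (2 * Real.sqrt n + 1))) ≤ (Zs.card : ENNReal) := by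
      refine (measure_mono hsub).trans ((measure_biUnion_finset_le _ _).trans ?_)
      simp only [cube_vol, Finset.sum_const, nsmul_eq_mul, mul_one, le_refl]
    rw [measureReal_def]
    have := ENNReal.toReal_mono (ENNReal.natCast_ne_top _) h1
    simpa using this
  -- the balls
  have hballs : (⋃ q ∈ (Finset.univ : Finset (Fin N)) ×ˢ Zs, ball (cen c lf q) (r / 2)) ⊆
      ball (0 : EE n) R ∩ body (XX c lf) (r / 2) := by
    apply iUnion₂_subset
    intro q hq
    apply subset_inter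
    · apply ball_subset_ball'
      rw [dist_zero_right]
      have h1 := (hZs q.2).1 (Finset.mem_product.1 hq).2
      have h2 : ‖cen c lf q - zv q.2‖ ≤ Real.sqrt n := by
        apply norm_near
        intro l
        show |lf (c q.1 l) + q.2 l - (q.2 l : ℝ)| ≤ 1
        rw [add_sub_cancel_right, abs_of_nonneg (hlf0 _)]
        exact (hlf1 _).le
      have h3 : ‖cen c lf q‖ ≤ ‖cen c lf q - zv q.2‖ + ‖zv q.2‖ := by
        have := norm_add_le (cen c lf q - zv q.2) (zv q.2)
        rwa [sub_add_cancel] at this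
      linarith
    · intro x hx
      unfold body
      rw [mem_iUnion₂]
      exact ⟨cen c lf q, ⟨q, rfl⟩, hx⟩
  have hvol : volume.real (⋃ q ∈ (Finset.univ : Finset (Fin N)) ×ˢ Zs,
      ball (cen c lf q) (r / 2)) = (N : ℝ) * Zs.card * ballVol n (r / 2) := by
    rw [measureReal_biUnion_finset]
    · have h1 : ∀ q ∈ (Finset.univ : Finset (Fin N)) ×ˢ Zs,
          volume.real (ball (cen c lf q) (r / 2)) = ballVol n (r / 2) := by
        intro q _
        unfold ballVol
        rw [← measureReal_def, vol_ball _ (by positivity), vol_ball _ (by positivity)]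
      rw [Finset.sum_congr rfl h1, Finset.sum_const, nsmul_eq_mul, Finset.card_product,
        Finset.card_univ, Fintype.card_fin]
      push_cast
      ring
    · intro q _ q' _ hne
      apply ball_disjoint_ball
      have := cen_sep hr hr1 hc hlf hne
      linarith
    · intro q _
      exact measurableSet_ball
  have hmono : volume.real (⋃ q ∈ (Finset.univ : Finset (Fin N)) ×ˢ Zs,
      ball (cen c lf q) (r / 2)) ≤ volume.real (ball (0 : EE n) R ∩ body (XX c lf) (r / 2)) := by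
    exact measureReal_mono hballs
      ((measure_mono inter_subset_left).trans_lt measure_ball_lt_top).ne
  rw [hvol] at hmono
  refine le_trans ?_ hmono
  have h0 : 0 ≤ (N : ℝ) * ballVol n (r / 2) := by
    unfold ballVol
    positivity
  have := mul_le_mul_of_nonneg_left hcount h0
  linarith

end

theorem per : Pool.Agent.N549.HG.S_PER := by
  intro n hn r hr hr1 N c hc
  have hlift : ∀ x : UnitAddCircle, ∃ a : ℝ, 0 ≤ a ∧ a < 1 ∧ (a : UnitAddCircle) = x := by
    intro x
    refine ⟨(AddCircle.equivIco 1 0 x : ℝ), ?_, ?_, ?_⟩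
    · exact (AddCircle.equivIco (1 : ℝ) 0 x).2.1
    · have h2 := (AddCircle.equivIco (1 : ℝ) 0 x).2.2
      linarith
    · exact (AddCircle.equivIco (1 : ℝ) 0).symm_apply_apply x
  choose lf hlf0 hlf1 hlf using hlift
  have hpack := packing hr hr1 hc hlf
  refine le_trans ?_ (le_optDensity hpack)
  obtain ⟨C, hC⟩ : ∃ C : ℝ, C = 2 * Real.sqrt n + 1 := ⟨_, rfl⟩
  have hC0 : 0 < C := by rw [hC]; positivity
  -- the lower function
  have hlim : Tendsto (fun R : ℝ => (N : ℝ) * ballVol n (r / 2) * ((R - C) / R) ^ n) atTop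
      (𝓝 ((N : ℝ) * ballVol n (r / 2) * 1 ^ n)) := by
    refine Tendsto.const_mul _ (Tendsto.pow ?_ n)
    have h1 : Tendsto (fun R : ℝ => 1 - C / R) atTop (𝓝 (1 - 0)) :=
      tendsto_const_nhds.sub (tendsto_const_nhds.div_atTop tendsto_id)
    rw [sub_zero] at h1
    refine h1.congr' ?_
    filter_upwards [eventually_gt_atTop 0] with R hR
    field_simp
  rw [one_pow, mul_one] at hlim
  rw [← hlim.limsup_eq]
  unfold upperDensity
  apply limsup_le_limsup
  · filter_upwards [eventually_gt_atTop C] with R hR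
    have hR0 : 0 < R := hC0.trans hR
    have h1 := vol_low hr hr1 hc hlf0 hlf1 hlf (R := R) (by rw [← hC]; exact hR)
    rw [← hC] at h1
    have hv : 0 < volume.real (ball (0 : EE n) R) := by
      rw [vol_ball _ hR0]
      exact mul_pos (by positivity) vb_pos
    rw [le_div_iff₀ hv]
    refine le_trans (le_of_eq ?_) h1
    rw [vol_ball _ hR0, vol_ball _ (sub_pos.2 hR), finrank_euclideanSpace, Fintype.card_fin,
      div_pow]
    field_simp
  · exact hlim.isCoboundedUnder_le
  · exact ratio_bdd _ _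

end Pool.Agent.N424.HG
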